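import Pool.Agent.H25.LF.Targets

/-!
# [CHB] Chebyshev's method (MP_04ff0f_nt)
-/

set_option autoImplicit false

open Finset Real ArithmeticFunction
open Pool.Agent.H25.LF

namespace Pool.Agent.H18.LF

theorem mem_PR {y : ℝ} {p : ℕ} (hy : 0 ≤ y) : p ∈ PR y ↔ p.Prime ∧ (p : ℝ) ≤ y := by
  unfold PR
  rw [mem_filter, mem_Icc]
  constructor
  · rintro ⟨⟨h1, h2⟩, h3⟩
    exact ⟨h3, (Nat.le_floor_iff hy).1 h2⟩
  · rintro ⟨h1, h2⟩
    exact ⟨⟨h1.one_le, (Nat.le_floor_iff hy).2 h2⟩, h1⟩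

/-- divisibility in the natural numbers -/
theorem dv_iff {d p : ℕ} (hp : 2 ≤ p) : Dv d p ↔ d ∣ p ^ 2 - 2 := by
  unfold Dv
  have h1 : 2 ≤ p ^ 2 := by nlinarith
  have h2 : ((p ^ 2 - 2 : ℕ) : ℤ) = (p : ℤ) ^ 2 - 2 := by
    push_cast [Nat.cast_sub h1]
    ring
  rw [← h2, Int.natCast_dvd_natCast]

/-- the logarithm as a sum over prime powers -/
theorem log_le {x p : ℕ} {θ : ℝ} (hx : 4 ≤ x) (hp : p ∈ BD x θ) :
    Real.log ((p ^ 2 - 2 : ℕ) : ℝ) ≤ ∑ l ∈ (PR ((x : ℝ) ^ θ)).filter (fun l : ℕ => (1 : ℝ) < l),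
      ∑ a ∈ Icc 1 x, if Dv (l ^ a) p then Real.log l else 0 := by
  classical
  unfold BD at hp
  rw [mem_filter, mem_PR (Nat.cast_nonneg x)] at hp
  obtain ⟨⟨hpp, hpx⟩, hp2⟩ := hp
  have hpx' : p ≤ x := by exact_mod_cast hpx
  have hp1 := hpp.two_le
  set N : ℕ := p ^ 2 - 2 with hN
  have hp4 : 4 ≤ p ^ 2 := by nlinarith
  have hN0 : N ≠ 0 := by omega
  have hNx : N < 2 ^ x := by
    have h1 : p ^ 2 ≤ x ^ 2 := Nat.pow_le_pow_left hpx' 2
    have h2 : x ^ 2 ≤ 2 ^ x := by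
      clear * - hx
      induction x, hx using Nat.le_induction with
      | base => norm_num
      | succ n hn ih =>
        rw [pow_succ 2 n]
        nlinarith
    omega
  rw [Real.log_nat_eq_sum_factorization, Finsupp.sum]
  have hsupp : N.factorization.support ⊆
      (PR ((x : ℝ) ^ θ)).filter (fun l : ℕ => (1 : ℝ) < l) := by
    intro l hl
    rw [Nat.support_factorization, Nat.mem_primeFactors] at hl
    rw [mem_filter, mem_PR (by positivity)]
    exact ⟨⟨hl.1, hp2 l hl.1 hl.2.1⟩, by exact_mod_cast hl.1.one_lt⟩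
  refine (Finset.sum_le_sum (g := fun l => ∑ a ∈ Icc 1 x,
    if Dv (l ^ a) p then Real.log l else 0) fun l hl => ?_).trans
    (Finset.sum_le_sum_of_subset_of_nonneg hsupp fun l _ _ =>
      Finset.sum_nonneg fun a _ => ?_)
  · rw [Nat.support_factorization, Nat.mem_primeFactors] at hl
    have h1 : N.factorization l ≤ ((Icc 1 x).filter fun a => Dv (l ^ a) p).card := by
      rw [Nat.factorization_eq_card_pow_dvd N hl.1]
      refine Finset.card_le_card fun a ha => ?_
      rw [mem_filter, mem_Ico] at ha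
      rw [mem_filter, mem_Icc, dv_iff hp1]
      refine ⟨⟨ha.1.1, ?_⟩, ha.2⟩
      by_contra h
      push Not at h
      have h2 : l ^ a ≤ N := Nat.le_of_dvd (Nat.pos_of_ne_zero hN0) ha.2
      have h3 : 2 ^ x ≤ 2 ^ a := Nat.pow_le_pow_right (by norm_num) h.le
      have h4 : 2 ^ a ≤ l ^ a := Nat.pow_le_pow_left hl.1.two_le a
      omega
    have h2 : (0 : ℝ) ≤ Real.log l := Real.log_nonneg (by exact_mod_cast hl.1.one_le)
    rw [← Finset.sum_filter, Finset.sum_const, nsmul_eq_mul]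
    exact mul_le_mul_of_nonneg_right (by exact_mod_cast h1) h2
  · split_ifs
    · exact Real.log_natCast_nonneg l
    · exact le_rfl

/-- the sum over the bad primes -/
theorem sum_log_le {x : ℕ} {θ : ℝ} (hx : 4 ≤ x) :
    ∑ p ∈ BD x θ, Real.log ((p ^ 2 - 2 : ℕ) : ℝ) ≤
      ∑ a ∈ Icc 1 x, SL 1 ((x : ℝ) ^ θ) (fun l => NN x (l ^ a)) := by
  classical
  refine (Finset.sum_le_sum fun p hp => log_le hx hp).trans ?_
  rw [Finset.sum_comm]
  have h1 : ∀ l ∈ (PR ((x : ℝ) ^ θ)).filter (fun l : ℕ => (1 : ℝ) < l),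
      ∑ p ∈ BD x θ, ∑ a ∈ Icc 1 x, (if Dv (l ^ a) p then Real.log l else 0) ≤
        ∑ a ∈ Icc 1 x, Real.log l * NN x (l ^ a) := by
    intro l _
    rw [Finset.sum_comm]
    refine Finset.sum_le_sum fun a _ => ?_
    rw [← Finset.sum_filter, Finset.sum_const, nsmul_eq_mul, mul_comm]
    refine mul_le_mul_of_nonneg_left ?_ (Real.log_natCast_nonneg l)
    unfold NN
    have h2 : (BD x θ).filter (fun p => Dv (l ^ a) p) ⊆ (PR (x : ℝ)).filter (Dv (l ^ a)) := by
      unfold BD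
      intro p hp
      rw [mem_filter, mem_filter] at hp
      rw [mem_filter]
      exact ⟨hp.1.1, hp.2⟩
    exact_mod_cast Finset.card_le_card h2
  refine (Finset.sum_le_sum h1).trans ?_
  rw [Finset.sum_comm]
  exact le_of_eq rfl

theorem pf_CHB (hPPW : T_PPW) (hBTS : T_BTS) : T_CHB := by
  classical
  intro θ δ hθ hθ1 hδ
  obtain ⟨x₁, hx₁⟩ := hPPW θ (δ / 4) hθ hθ1 (by positivity)
  obtain ⟨Y, hY2, hY⟩ := hBTS 1 one_pos
  set η : ℝ := δ / 48 with hη
  have hη0 : 0 < η := by positivity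
  -- eventual inequalities
  have ev1 : ∀ᶠ x : ℝ in Filter.atTop, Real.log x ≤ δ / 4 * x ^ η := by
    have h1 := (isLittleO_log_rpow_atTop hη0).bound (show (0 : ℝ) < δ / 4 by positivity)
    filter_upwards [h1, Filter.eventually_ge_atTop 1] with x hx hx1
    rw [Real.norm_of_nonneg (Real.log_nonneg hx1), Real.norm_of_nonneg (by positivity)] at hx
    exact hx
  have ev2 : ∀ᶠ x : ℝ in Filter.atTop, 24 / δ + 1 ≤ Real.log x :=
    Real.tendsto_log_atTop.eventually_ge_atTop _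
  obtain ⟨X, hX⟩ := Filter.eventually_atTop.1 ((ev1.and ev2).and
    ((Filter.eventually_ge_atTop x₁).and (Filter.eventually_ge_atTop Y)))
  refine ⟨max 4 ⌈X⌉₊, fun x hx => ?_⟩
  have hx4 : 4 ≤ x := (le_max_left _ _).trans hx
  have hxX : X ≤ (x : ℝ) := (Nat.le_ceil X).trans (by exact_mod_cast (le_max_right _ _).trans hx)
  obtain ⟨⟨e1, e2⟩, e3, e4⟩ := hX x hxX
  have hx0 : (0 : ℝ) < x := by exact_mod_cast (by omega : 0 < x)
  have hlog : 0 < Real.log x := by
    have : 0 < 24 / δ := by positivity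
    linarith
  -- upper bound
  have hup : ∑ p ∈ BD x θ, Real.log ((p ^ 2 - 2 : ℕ) : ℝ) ≤
      SL 1 ((x : ℝ) ^ θ) (NN x) + δ / 4 * x := by
    refine (sum_log_le hx4).trans ?_
    have h1 := hx₁ x e3
    rw [Nat.floor_natCast] at h1
    have h2 : Icc 1 x = insert 1 (Icc 2 x) := by
      ext a
      rw [mem_insert, mem_Icc, mem_Icc]
      omega
    rw [h2, Finset.sum_insert (by rw [mem_Icc]; omega)]
    have h3 : (fun l => NN (x : ℝ) (l ^ 1)) = NN (x : ℝ) := by
      funext l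
      rw [pow_one]
    rw [h3]
    linarith
  -- number of the primes
  have hPR : ((PR (x : ℝ)).card : ℝ) ≤ 3 * x / Real.log x := by
    have h1 := hY x 1 0 le_rfl (by simpa using e4)
    have h2 : (PR (x : ℝ)).filter (fun p => p % 1 = 0 % 1) = PR (x : ℝ) := by
      refine Finset.filter_true_of_mem fun p _ => ?_
      omega
    rw [h2] at h1
    refine h1.trans (le_of_eq ?_)
    norm_num
  set B := BD x θ with hB
  have hBsub : B ⊆ PR (x : ℝ) := by
    rw [hB]
    unfold BD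
    exact Finset.filter_subset _ _
  set B1 := B.filter (fun p : ℕ => (x : ℝ) ^ (1 - η) < p) with hB1
  set B2 := B.filter (fun p : ℕ => ¬ (x : ℝ) ^ (1 - η) < p) with hB2
  have hcard : (B.card : ℝ) = B1.card + B2.card := by
    exact_mod_cast (Finset.card_filter_add_card_filter_not (s := B)
      (fun p : ℕ => (x : ℝ) ^ (1 - η) < p)).symm
  have hxη : 0 ≤ (x : ℝ) ^ (1 - η) := by positivity
  have hB2c : (B2.card : ℝ) ≤ (x : ℝ) ^ (1 - η) := by
    have h1 : B2 ⊆ Icc 1 ⌊(x : ℝ) ^ (1 - η)⌋₊ := by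
      intro p hp
      rw [hB2, mem_filter] at hp
      have h2 := (mem_PR hx0.le).1 (hBsub hp.1)
      rw [mem_Icc]
      exact ⟨h2.1.one_le, Nat.le_floor (not_lt.1 hp.2)⟩
    have h2 := Finset.card_le_card h1
    rw [Nat.card_Icc, Nat.add_sub_cancel] at h2
    exact le_trans (by exact_mod_cast h2) (Nat.floor_le hxη)
  have hB1c : (B1.card : ℝ) ≤ 3 * x / Real.log x := by
    refine le_trans ?_ hPR
    exact_mod_cast Finset.card_le_card ((Finset.filter_subset _ _).trans hBsub)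
  have hlow : (2 * (1 - η) * Real.log x - 1) * B1.card ≤
      ∑ p ∈ B, Real.log ((p ^ 2 - 2 : ℕ) : ℝ) := by
    have h1 : ∀ p ∈ B, 0 ≤ Real.log ((p ^ 2 - 2 : ℕ) : ℝ) := fun p _ => Real.log_natCast_nonneg _
    have h2 : ∑ p ∈ B1, Real.log ((p ^ 2 - 2 : ℕ) : ℝ) ≤
        ∑ p ∈ B, Real.log ((p ^ 2 - 2 : ℕ) : ℝ) :=
      Finset.sum_le_sum_of_subset_of_nonneg (Finset.filter_subset _ _) fun p hp _ => h1 p hp
    refine le_trans ?_ h2
    rw [mul_comm, ← nsmul_eq_mul, ← Finset.sum_const]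
    refine Finset.sum_le_sum fun p hp => ?_
    rw [hB1, mem_filter] at hp
    have hpp := ((mem_PR hx0.le).1 (hBsub hp.1)).1
    have hp2 : (2 : ℝ) ≤ p := by exact_mod_cast hpp.two_le
    have h3 : (1 - η) * Real.log x ≤ Real.log p := by
      rw [← Real.log_rpow hx0]
      exact Real.log_le_log (by positivity) hp.2.le
    have h4 : ((p ^ 2 - 2 : ℕ) : ℝ) = (p : ℝ) ^ 2 - 2 := by
      have : 2 ≤ p ^ 2 := by nlinarith [hpp.two_le]
      push_cast [Nat.cast_sub this]
      ring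
    have h5 : Real.log ((p : ℝ) ^ 2 / 2) ≤ Real.log ((p ^ 2 - 2 : ℕ) : ℝ) := by
      rw [h4]
      refine Real.log_le_log (by positivity) ?_
      nlinarith
    rw [Real.log_div (by positivity) (by norm_num), Real.log_pow] at h5
    have h6 : Real.log 2 ≤ 1 := by
      have := Real.log_two_lt_d9
      linarith
    push_cast at h5
    linarith
  -- assembly
  have hdiv : 3 * (x : ℝ) / Real.log x * Real.log x = 3 * x := by
    field_simp
  have f1 : (2 * η * Real.log x + 1) * B1.card ≤ δ / 4 * x := by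
    have g1 : (2 * η * Real.log x + 1) * B1.card ≤
        (2 * η * Real.log x + 1) * (3 * x / Real.log x) :=
      mul_le_mul_of_nonneg_left hB1c (by positivity)
    have g2 : (2 * η * Real.log x + 1) * (3 * x / Real.log x) = 6 * η * x + 3 * x / Real.log x := by
      field_simp
      ring
    have g3 : 3 * (x : ℝ) / Real.log x ≤ δ / 8 * x := by
      rw [div_le_iff₀ hlog]
      have g4 : 24 / δ ≤ Real.log x := by linarith
      rw [div_le_iff₀ hδ] at g4
      nlinarith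
    have g5 : 6 * η * (x : ℝ) = δ / 8 * x := by
      rw [hη]
      ring
    rw [g2, g5] at g1
    linarith
  have f2 : 2 * Real.log x * B2.card ≤ δ / 2 * x := by
    calc 2 * Real.log x * B2.card ≤ 2 * Real.log x * (x : ℝ) ^ (1 - η) :=
          mul_le_mul_of_nonneg_left hB2c (by positivity)
      _ ≤ 2 * (δ / 4 * (x : ℝ) ^ η) * (x : ℝ) ^ (1 - η) := by
          refine mul_le_mul_of_nonneg_right ?_ hxη
          linarith
      _ = δ / 2 * ((x : ℝ) ^ η * (x : ℝ) ^ (1 - η)) := by ring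
      _ = δ / 2 * x := by
          rw [← Real.rpow_add hx0]
          have : η + (1 - η) = 1 := by ring
          rw [this, Real.rpow_one]
  have f3 := hlow.trans hup
  rw [hcard]
  nlinarith

end Pool.Agent.H18.LF
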